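import Mathlib
import Pool.Agent.H29.HS.Iface

/-!
# Module D (interpolation on the ellipse) for MP_a2e4e3_an
-/

namespace Pool.Agent.H62.HS
open Finset

/-- sum of the powers of a root of unity -/
lemma sum_pow_root {n : ℕ} (r : ℂ) (hr : r ^ n = 1) :
    ∑ j : Fin n, r ^ (j : ℕ) = if r = 1 then (n : ℂ) else 0 := by
  rw [Fin.sum_univ_eq_sum_range (fun j => r ^ j) n]
  split_ifs with h
  · subst h; simp
  · have h1 := mul_geom_sum r n
    rw [hr, sub_self] at h1
    rcases mul_eq_zero.1 h1 with h2 | h2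
    · exact absurd (sub_eq_zero.1 h2) h
    · exact h2

/-- weights with prescribed moments on the roots of unity -/
lemma exists_weights (M : ℕ) (hM : 0 < M) (c : ℕ → ℂ) (hc0 : c 0 = 1) :
    ∃ (z κ : Fin (2 * M) → ℂ), (∀ j, ‖z j‖ = 1) ∧
      (∀ e < M, ∑ j, κ j * z j ^ e = c e) ∧
      (∀ e < M, ∑ j, κ j * (z j)⁻¹ ^ e = if e = 0 then 1 else 0) ∧
      ∑ j, ‖κ j‖ ≤ ∑ e ∈ range M, ‖c e‖ := by
  set n := 2 * M with hn
  have hn0 : n ≠ 0 := by omega
  have hnC : (n : ℂ) ≠ 0 := by exact_mod_cast hn0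
  set ζ : ℂ := Complex.exp (2 * Real.pi * Complex.I / n) with hζdef
  have hζ : IsPrimitiveRoot ζ n := Complex.isPrimitiveRoot_exp n hn0
  have hζ0 : ζ ≠ 0 := hζ.ne_zero hn0
  have hζn : ‖ζ‖ = 1 := by
    exact Complex.norm_eq_one_of_pow_eq_one hζ.pow_eq_one hn0
  refine ⟨fun j => ζ ^ (j : ℕ), fun j => (1 / n) * ∑ e ∈ range M, c e * (ζ⁻¹ ^ e) ^ (j : ℕ),
    ?_, ?_, ?_, ?_⟩
  · intro j
    rw [norm_pow, hζn, one_pow]
  · intro e he
    have h1 : ∀ j : Fin n, ((1 / n : ℂ) * ∑ e' ∈ range M, c e' * (ζ⁻¹ ^ e') ^ (j : ℕ)) *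
        (ζ ^ (j : ℕ)) ^ e = (1 / n) * ∑ e' ∈ range M, c e' * (ζ⁻¹ ^ e' * ζ ^ e) ^ (j : ℕ) := by
      intro j
      rw [mul_assoc, Finset.sum_mul]
      congr 1
      refine Finset.sum_congr rfl fun e' _ => ?_
      rw [mul_pow, ← pow_mul ζ (j : ℕ) e, mul_comm (j : ℕ) e, pow_mul ζ e (j : ℕ)]
      ring
    rw [Finset.sum_congr rfl fun j _ => h1 j, ← Finset.mul_sum, Finset.sum_comm]
    have h2 : ∀ e' ∈ range M, ∑ j : Fin n, c e' * (ζ⁻¹ ^ e' * ζ ^ e) ^ (j : ℕ) =
        if e' = e then c e' * n else 0 := by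
      intro e' he'
      rw [← Finset.mul_sum, sum_pow_root]
      · have h3 : ζ⁻¹ ^ e' * ζ ^ e = 1 ↔ e' = e := by
          constructor
          · intro h
            have h4 : ζ ^ e = ζ ^ e' := by
              have : ζ ^ e' * (ζ⁻¹ ^ e' * ζ ^ e) = ζ ^ e := by
                rw [← mul_assoc, ← mul_pow, mul_inv_cancel₀ hζ0, one_pow, one_mul]
              rw [← this, h, mul_one]
            have := hζ.pow_inj (by omega) (by simp at he'; omega) h4
            omega
          · rintro rfl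
            rw [← mul_pow, inv_mul_cancel₀ hζ0, one_pow]
        by_cases h5 : e' = e
        · rw [if_pos (h3.2 h5), if_pos h5]
        · rw [if_neg (fun h => h5 (h3.1 h)), if_neg h5, mul_zero]
      · have h8 : (ζ⁻¹) ^ n = 1 := by rw [inv_pow, hζ.pow_eq_one, inv_one]
        rw [mul_pow, ← pow_mul, ← pow_mul, mul_comm e' n, mul_comm e n, pow_mul ζ⁻¹ n e',
          pow_mul ζ n e, h8, hζ.pow_eq_one]
        simp
    rw [Finset.sum_congr rfl h2, Finset.sum_ite_eq' (range M) e, if_pos (by simpa using he)]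
    field_simp
  · intro e he
    have h1 : ∀ j : Fin n, ((1 / n : ℂ) * ∑ e' ∈ range M, c e' * (ζ⁻¹ ^ e') ^ (j : ℕ)) *
        (ζ ^ (j : ℕ))⁻¹ ^ e = (1 / n) * ∑ e' ∈ range M, c e' * (ζ⁻¹ ^ (e' + e)) ^ (j : ℕ) := by
      intro j
      rw [mul_assoc, Finset.sum_mul]
      congr 1
      refine Finset.sum_congr rfl fun e' _ => ?_
      rw [← inv_pow, ← pow_mul, ← pow_mul, ← pow_mul, mul_assoc, ← pow_add]
      congr 2
      ring
    rw [Finset.sum_congr rfl fun j _ => h1 j, ← Finset.mul_sum, Finset.sum_comm]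
    have h2 : ∀ e' ∈ range M, ∑ j : Fin n, c e' * (ζ⁻¹ ^ (e' + e)) ^ (j : ℕ) =
        if e' = 0 then (if e = 0 then (n : ℂ) else 0) else 0 := by
      intro e' he'
      rw [← Finset.mul_sum, sum_pow_root]
      · have h3 : ζ⁻¹ ^ (e' + e) = 1 ↔ e' + e = 0 := by
          constructor
          · intro h
            have h4 : ζ ^ (e' + e) = 1 := by
              rw [inv_pow] at h
              exact inv_eq_one.1 h
            have h5 := (hζ.pow_eq_one_iff_dvd _).1 h4
            by_contra h6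
            have := Nat.le_of_dvd (Nat.pos_of_ne_zero h6) h5
            simp at he'
            omega
          · intro h
            rw [h, pow_zero]
        by_cases h5 : e' = 0
        · by_cases h6 : e = 0
          · rw [if_pos (h3.2 (by omega)), if_pos h5, if_pos h6, h5, hc0, one_mul]
          · rw [if_neg (fun h => h6 (by have := h3.1 h; omega)), if_pos h5, if_neg h6, mul_zero]
        · rw [if_neg (fun h => h5 (by have := h3.1 h; omega)), if_neg h5, mul_zero]
      · rw [← pow_mul, mul_comm, pow_mul, inv_pow, hζ.pow_eq_one]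
        simp
    rw [Finset.sum_congr rfl h2, Finset.sum_ite_eq' (range M) 0, if_pos (by simpa using hM)]
    split_ifs
    · field_simp
    · simp
  · have h1 : ∀ j : Fin n, ‖(1 / n : ℂ) * ∑ e ∈ range M, c e * (ζ⁻¹ ^ e) ^ (j : ℕ)‖ ≤
        (1 / n) * ∑ e ∈ range M, ‖c e‖ := by
      intro j
      rw [norm_mul]
      have h2 : ‖(1 / n : ℂ)‖ = 1 / n := by simp
      rw [h2]
      refine mul_le_mul_of_nonneg_left ?_ (by positivity)
      refine (norm_sum_le _ _).trans (le_of_eq (Finset.sum_congr rfl fun e _ => ?_))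
      rw [norm_mul, norm_pow, norm_pow, norm_inv, hζn]
      simp
    refine (Finset.sum_le_sum fun j _ => h1 j).trans (le_of_eq ?_)
    rw [Finset.sum_const, Finset.card_univ, Fintype.card_fin, nsmul_eq_mul]
    have : (n : ℝ) ≠ 0 := by exact_mod_cast hn0
    field_simp

/-- the polynomials `T_e` -/
noncomputable def T (m : ℕ) (e : ℕ) (x : ℂ) : ℂ := (20 * m * x) ^ e + (10 * m * x⁻¹) ^ e

noncomputable def sx (m : ℕ) (x : ℂ) : ℂ := 20 * m * x + 10 * m * x⁻¹

lemma sx_T_zero (m : ℕ) (x : ℂ) : sx m x * T m 0 x = 2 * T m 1 x := by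
  simp only [sx, T, pow_zero, pow_one]; ring

lemma sx_T_succ (m : ℕ) (e : ℕ) (x : ℂ) (hx : x ≠ 0) :
    sx m x * T m (e + 1) x = T m (e + 2) x + 200 * m ^ 2 * T m e x := by
  simp only [sx, T]
  have h : (20 * m * x) * (10 * m * x⁻¹) = 200 * (m : ℂ) ^ 2 := by
    field_simp; ring
  linear_combination ((10 * m * x⁻¹) ^ e + (20 * m * x) ^ e) * h

/-- Module D -/
theorem dStmt : Pool.Agent.H29.HS.DStmt := by
  intro m hm
  set M := 340 * m ^ 2 with hM
  have hM0 : 0 < M := by positivity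
  set x₀ : ℂ := Complex.I * (5 / 4) with hx₀
  have hx₀0 : x₀ ≠ 0 := by
    rw [hx₀]
    exact mul_ne_zero Complex.I_ne_zero (by norm_num)
  set c : ℕ → ℂ := fun e => if e = 0 then 1 else x₀ ^ e + (1 / 2) ^ e * x₀⁻¹ ^ e with hc
  obtain ⟨z, κ, hz, h1, h2, h3⟩ := exists_weights M hM0 c (by simp [hc])
  have hz0 : ∀ j, z j ≠ 0 := fun j h => by
    have := hz j
    rw [h, norm_zero] at this
    exact zero_ne_one this
  have hT : ∀ e < M, ∑ j, κ j * T m e (z j) = T m e x₀ := by
    intro e he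
    have : ∀ j, κ j * T m e (z j) = (20 * m) ^ e * (κ j * z j ^ e) +
        (10 * m) ^ e * (κ j * (z j)⁻¹ ^ e) := by
      intro j
      simp only [T, mul_pow]
      ring
    rw [Finset.sum_congr rfl fun j _ => this j, Finset.sum_add_distrib, ← Finset.mul_sum,
      ← Finset.mul_sum, h1 e he, h2 e he]
    by_cases h : e = 0
    · subst h
      simp [hc, T]
    · simp only [hc, h, if_false, T]
      have h5 : (10 * (m : ℂ)) ^ e = (20 * m) ^ e * (1 / 2) ^ e := by
        rw [← mul_pow]; congr 1; ring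
      rw [mul_pow (20 * (m : ℂ)) x₀, mul_pow (10 * (m : ℂ)) x₀⁻¹, h5]
      ring
  have hind : ∀ k e, k + e < M → ∑ j, κ j * (sx m (z j) ^ k * T m e (z j)) =
      sx m x₀ ^ k * T m e x₀ := by
    intro k
    induction k with
    | zero =>
      intro e he
      simpa using hT e (by omega)
    | succ k ih =>
      intro e he
      cases e with
      | zero =>
        have h4 : ∀ x : ℂ, sx m x ^ (k + 1) * T m 0 x = 2 * (sx m x ^ k * T m 1 x) := by
          intro x
          rw [pow_succ, mul_assoc, sx_T_zero]; ring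
        rw [h4, ← ih 1 (by omega), Finset.mul_sum]
        refine Finset.sum_congr rfl fun j _ => ?_
        rw [h4]; ring
      | succ e =>
        have h4 : ∀ x : ℂ, x ≠ 0 → sx m x ^ (k + 1) * T m (e + 1) x =
            sx m x ^ k * T m (e + 2) x + 200 * m ^ 2 * (sx m x ^ k * T m e x) := by
          intro x hx
          rw [pow_succ, mul_assoc, sx_T_succ m e x hx]; ring
        rw [h4 x₀ hx₀0, ← ih (e + 2) (by omega), ← ih e (by omega), Finset.mul_sum,
          ← Finset.sum_add_distrib]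
        refine Finset.sum_congr rfl fun j _ => ?_
        rw [h4 _ (hz0 j)]; ring
  have hsx : sx m x₀ = Complex.I * (17 * m) := by
    simp only [sx, hx₀]
    have hI : (Complex.I * (5 / 4 : ℂ))⁻¹ = -Complex.I * (4 / 5) := by
      rw [mul_inv, Complex.inv_I]
      norm_num
    rw [hI]; ring
  have hzi : ∀ j, (z j)⁻¹ = (starRingEnd ℂ) (z j) := by
    intro j
    rw [Complex.inv_def, Complex.normSq_eq_norm_sq, hz j]
    simp
  refine ⟨Fin (2 * M), inferInstance, fun j => sx m (z j), κ, ?_, ?_, ?_, ?_⟩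
  · intro e he
    have h4 := hind e 0 (by omega)
    have h5 : ∀ x : ℂ, T m 0 x = 2 := by intro x; simp [T]; norm_num
    simp only [h5] at h4
    rw [hsx] at h4
    have h6 : (∑ j, κ j * sx m (z j) ^ e) * 2 = (Complex.I * (17 * m)) ^ e * 2 := by
      rw [← h4, Finset.sum_mul]
      exact Finset.sum_congr rfl fun j _ => by ring
    exact mul_right_cancel₀ two_ne_zero h6
  · refine h3.trans ?_
    have hx₀n : ‖x₀‖ = 5 / 4 := by
      rw [hx₀, norm_mul, Complex.norm_I]; norm_num
    have h4 : ∀ e ∈ range M, ‖c e‖ ≤ 2 * (5 / 4 : ℝ) ^ e := by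
      intro e _
      by_cases h : e = 0
      · subst h; simp [hc]
      · simp only [hc, h, if_false]
        refine (norm_add_le _ _).trans ?_
        rw [norm_mul, norm_pow, norm_pow, norm_pow, norm_inv, hx₀n]
        have h5 : ‖(1 / 2 : ℂ)‖ ^ e * ((5 / 4 : ℝ)⁻¹) ^ e ≤ (5 / 4 : ℝ) ^ e := by
          rw [← mul_pow]
          refine pow_le_pow_left₀ (by positivity) ?_ e
          norm_num
        linarith
    refine (Finset.sum_le_sum h4).trans ?_
    rw [← Finset.mul_sum, geom_sum_eq (by norm_num : (5 / 4 : ℝ) ≠ 1)]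
    have h6 : (0 : ℝ) ≤ (5 / 4 : ℝ) ^ M := by positivity
    have h7 : (2 : ℝ) * (((5 / 4 : ℝ) ^ M - 1) / (5 / 4 - 1)) = 8 * ((5 / 4 : ℝ) ^ M - 1) := by
      norm_num
      ring
    rw [h7]
    linarith
  · intro j
    have hre : (sx m (z j)).re = 30 * m * (z j).re := by
      simp only [sx, hzi j, Complex.add_re, Complex.mul_re, Complex.mul_im, Complex.conj_re,
        Complex.conj_im, Complex.natCast_re, Complex.natCast_im, Complex.re_ofNat,
        Complex.im_ofNat]
      ring
    have him : (sx m (z j)).im = 10 * m * (z j).im := by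
      simp only [sx, hzi j, Complex.add_im, Complex.mul_re, Complex.mul_im, Complex.conj_re,
        Complex.conj_im, Complex.natCast_re, Complex.natCast_im, Complex.re_ofNat,
        Complex.im_ofNat]
      ring
    have hn : (z j).re ^ 2 + (z j).im ^ 2 = 1 := by
      have := hz j
      have h4 : Complex.normSq (z j) = 1 := by rw [Complex.normSq_eq_norm_sq, this]; norm_num
      rw [Complex.normSq_apply] at h4
      nlinarith
    simp only [Pool.Agent.H29.HS.phi, hre, him]
    have h5 : (z j).im ^ 2 = 1 - (z j).re ^ 2 := by linarith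
    rw [mul_pow (10 * (m : ℝ)), h5]
    ring
  · intro j
    simp only [sx]
    refine (norm_add_le _ _).trans ?_
    simp only [norm_mul, norm_inv, hz j, Complex.norm_natCast, Complex.norm_ofNat]
    have : (0 : ℝ) ≤ m := Nat.cast_nonneg m
    linarith

end Pool.Agent.H62.HS
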