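import Mathlib
import Pool.Agent.H29.HS.Iface
import Pool.Agent.H29.HS.Nrm

/-!
# Module E (orthogonality and the Poisson variance) for MP_a2e4e3_an
-/

namespace Pool.Agent.H62.HS
open Finset MeasureTheory Pool.Agent.H29.HS

section
variable {Ω : Type} [MeasurableSpace Ω] {μ : Measure Ω} {u : Ω → ℝ}

/-- orthonormality of the products of independent normalised variables -/
lemma integral_prod_mul_prod (h : IsAlph μ u) {ι : Type} [Fintype ι] [DecidableEq ι]
    (S T : Finset ι) :
    ∫ ω, (∏ i ∈ S, u (ω i)) * ∏ i ∈ T, u (ω i) ∂(Measure.pi fun _ : ι => μ) =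
      if S = T then 1 else 0 := by
  have := h.prob
  have e : ∀ ω : ι → Ω, (∏ i ∈ S, u (ω i)) * ∏ i ∈ T, u (ω i) =
      ∏ i, ((fun (i : ι) (x : Ω) => (if i ∈ S then u x else 1) * (if i ∈ T then u x else 1)) i
        (ω i)) := by
    intro ω
    simp only [Finset.prod_mul_distrib, Finset.prod_ite_mem, Finset.univ_inter]
  rw [integral_congr_ae (Filter.Eventually.of_forall e),
    integral_fintype_prod_eq_prod (𝕜 := ℝ)
      (fun (i : ι) (x : Ω) => (if i ∈ S then u x else 1) * (if i ∈ T then u x else 1))]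
  have h1 : ∀ i : ι, ∫ x, (if i ∈ S then u x else 1) * (if i ∈ T then u x else 1) ∂μ =
      if (i ∈ S ↔ i ∈ T) then 1 else 0 := by
    intro i
    by_cases hS : i ∈ S <;> by_cases hT : i ∈ T
    · simp only [hS, hT, if_true]
      rw [← h.var]
      exact integral_congr_ae (Filter.Eventually.of_forall fun x => by ring)
    · simp only [hS, hT, if_true, if_false, mul_one]
      rw [h.mean]; simp
    · simp only [hS, hT, if_true, if_false, one_mul]
      rw [h.mean]; simp
    · simp [hS, hT]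
  rw [Finset.prod_congr rfl fun i _ => h1 i]
  by_cases hST : S = T
  · subst hST; simp
  · rw [if_neg hST]
    have : ∃ i, ¬ (i ∈ S ↔ i ∈ T) := by
      by_contra h2
      push Not at h2
      exact hST (Finset.ext h2)
    obtain ⟨i, hi⟩ := this
    exact Finset.prod_eq_zero (Finset.mem_univ i) (if_neg hi)

/-- Parseval -/
lemma integral_sq_mev (h : IsAlph μ u) {ι : Type} [Fintype ι] [DecidableEq ι]
    (a : Finset ι → ℝ) :
    ∫ ω, (mev a (fun k => u (ω k))) ^ 2 ∂(Measure.pi fun _ : ι => μ) = ∑ S, a S ^ 2 := by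
  have := h.prob
  have hbm : ∀ S : Finset ι, BM (fun ω : ι → Ω => ∏ i ∈ S, u (ω i)) := fun S =>
    BM.prod S fun i _ => (IsAlph.bm h).comp_meas (measurable_pi_apply i)
  have e : ∀ ω : ι → Ω, (mev a (fun k => u (ω k))) ^ 2 =
      ∑ S : Finset ι, ∑ T : Finset ι, (a S * a T) * ((∏ i ∈ S, u (ω i)) * ∏ i ∈ T, u (ω i)) := by
    intro ω
    rw [mev, sq, Finset.sum_mul_sum]
    refine Finset.sum_congr rfl fun S _ => Finset.sum_congr rfl fun T _ => by ring
  simp_rw [e]
  rw [integral_finsetSum]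
  · have h2 : ∀ S : Finset ι, ∫ ω, ∑ T : Finset ι, (a S * a T) *
        ((∏ i ∈ S, u (ω i)) * ∏ i ∈ T, u (ω i)) ∂(Measure.pi fun _ : ι => μ) = a S ^ 2 := by
      intro S
      rw [integral_finsetSum]
      · have h3 : ∀ T : Finset ι, ∫ ω, (a S * a T) *
            ((∏ i ∈ S, u (ω i)) * ∏ i ∈ T, u (ω i)) ∂(Measure.pi fun _ : ι => μ) =
            if S = T then a S * a T else 0 := by
          intro T
          rw [integral_const_mul, integral_prod_mul_prod h]
          split_ifs <;> simp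
        rw [Finset.sum_congr rfl fun T _ => h3 T, Finset.sum_ite_eq, if_pos (Finset.mem_univ _)]
        ring
      · intro T _
        exact (((hbm S).mul (hbm T)).const_mul (a S * a T)).integrable
    exact Finset.sum_congr rfl fun S _ => h2 S
  · intro S _
    exact (BM.sum Finset.univ fun T _ => (((hbm S).mul (hbm T)).const_mul (a S * a T))).integrable

end

/-- Poisson moments -/
lemma hasSum_poisson (l : ℝ) : HasSum (fun k : ℕ => l ^ k / (k.factorial : ℝ)) (Real.exp l) := by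
  have := NormedSpace.expSeries_div_hasSum_exp (l : ℝ)
  rwa [← Real.exp_eq_exp_ℝ] at this

lemma hasSum_poisson_one (l : ℝ) :
    HasSum (fun k : ℕ => l ^ k / (k.factorial : ℝ) * k) (l * Real.exp l) := by
  rw [← hasSum_nat_add_iff' 1]
  have h := (hasSum_poisson l).mul_left l
  have e1 : (fun k : ℕ => l ^ (k + 1) / ((k + 1).factorial : ℝ) * ((k + 1 : ℕ) : ℝ)) =
      fun k : ℕ => l * (l ^ k / (k.factorial : ℝ)) := by
    funext k
    rw [Nat.factorial_succ]
    push_cast
    have : (k.factorial : ℝ) ≠ 0 := by exact_mod_cast k.factorial_ne_zero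
    have : (k : ℝ) + 1 ≠ 0 := by positivity
    field_simp
    ring
  have e2 : l * Real.exp l - ∑ i ∈ range 1, l ^ i / (i.factorial : ℝ) * (i : ℝ) =
      l * Real.exp l := by simp
  rw [e1, e2]
  exact h

lemma hasSum_poisson_two (l : ℝ) :
    HasSum (fun k : ℕ => l ^ k / (k.factorial : ℝ) * (k * (k - 1))) (l ^ 2 * Real.exp l) := by
  rw [← hasSum_nat_add_iff' 2]
  have h := (hasSum_poisson l).mul_left (l ^ 2)
  have e1 : (fun k : ℕ => l ^ (k + 2) / ((k + 2).factorial : ℝ) *
      (((k + 2 : ℕ) : ℝ) * (((k + 2 : ℕ) : ℝ) - 1))) =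
      fun k : ℕ => l ^ 2 * (l ^ k / (k.factorial : ℝ)) := by
    funext k
    rw [Nat.factorial_succ, Nat.factorial_succ]
    push_cast
    have : (k.factorial : ℝ) ≠ 0 := by exact_mod_cast k.factorial_ne_zero
    have : (k : ℝ) + 1 ≠ 0 := by positivity
    have : (k : ℝ) + 1 + 1 ≠ 0 := by positivity
    field_simp
    ring
  have e2 : l ^ 2 * Real.exp l - ∑ i ∈ range 2, l ^ i / (i.factorial : ℝ) *
      ((i : ℝ) * ((i : ℝ) - 1)) = l ^ 2 * Real.exp l := by
    simp [Finset.sum_range_succ]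
  rw [e1, e2]
  exact h

lemma hasSum_poisson_var (l : ℝ) :
    HasSum (fun k : ℕ => l ^ k / (k.factorial : ℝ) * ((k : ℝ) - l) ^ 2) (l * Real.exp l) := by
  have h := ((hasSum_poisson_two l).add ((hasSum_poisson_one l).mul_left (1 - 2 * l))).add
    ((hasSum_poisson l).mul_left (l ^ 2))
  have e1 : (fun k : ℕ => l ^ k / (k.factorial : ℝ) * ((k : ℝ) - l) ^ 2) =
      fun k : ℕ => l ^ k / (k.factorial : ℝ) * (k * (k - 1)) +
        (1 - 2 * l) * (l ^ k / (k.factorial : ℝ) * k) + l ^ 2 * (l ^ k / (k.factorial : ℝ)) := by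
    funext k
    ring
  have e2 : l * Real.exp l = l ^ 2 * Real.exp l + (1 - 2 * l) * (l * Real.exp l) +
      l ^ 2 * Real.exp l := by ring
  rw [e1, e2]
  exact h

/-- sum over subsets against a Poisson sum -/
lemma sum_card_le {N : ℕ} (hN : 1 ≤ N) (l : ℝ) (hl : 0 ≤ l) (g : ℕ → ℝ) (hg : ∀ k, 0 ≤ g k)
    (s : ℝ) (hs : HasSum (fun k : ℕ => l ^ k / (k.factorial : ℝ) * g k) s) :
    ∑ K : Finset (Fin N), (l / N) ^ K.card * g K.card ≤ s := by
  have h1 : ∑ K : Finset (Fin N), (l / N) ^ K.card * g K.card =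
      ∑ k ∈ range (N + 1), (N.choose k) • ((l / N) ^ k * g k) := by
    have := Finset.sum_powerset_apply_card (fun k => (l / N) ^ k * g k)
      (x := (Finset.univ : Finset (Fin N)))
    rw [Finset.powerset_univ, Finset.card_univ, Fintype.card_fin] at this
    exact this
  rw [h1]
  refine le_trans (Finset.sum_le_sum ?_) (sum_le_hasSum (range (N + 1)) ?_ hs)
  · intro k _
    rw [nsmul_eq_mul, ← mul_assoc]
    refine mul_le_mul_of_nonneg_right ?_ (hg k)
    have h2 := Nat.choose_le_pow_div (α := ℝ) k N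
    have hN' : (0 : ℝ) < N := by exact_mod_cast hN
    calc (N.choose k : ℝ) * (l / N) ^ k ≤ ((N : ℝ) ^ k / k.factorial) * (l / N) ^ k :=
          mul_le_mul_of_nonneg_right h2 (by positivity)
      _ = l ^ k / k.factorial := by
          rw [div_pow]
          field_simp
  · intro k _
    exact mul_nonneg (by positivity) (hg k)

lemma fcoef_sq_le (w : ℝ) {N : ℕ} (hN : 1 ≤ N) (K : Finset (Fin N)) :
    fcoef w N K ^ 2 ≤ 2 * Real.exp (-w ^ 2) * (w ^ 2 / N) ^ K.card := by
  have hN' : (0 : ℝ) < N := by exact_mod_cast hN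
  have h1 : fcoef w N K ^ 2 = 2 * Real.exp (-w ^ 2) *
      (((Complex.I * w / (Real.sqrt N : ℝ)) ^ K.card).re) ^ 2 := by
    rw [fcoef, mul_pow, mul_pow, Real.sq_sqrt (by norm_num), ← Real.exp_nat_mul]
    congr 3
    push_cast
    ring
  rw [h1]
  refine mul_le_mul_of_nonneg_left ?_ (by positivity)
  have h2 : (((Complex.I * w / (Real.sqrt N : ℝ)) ^ K.card).re) ^ 2 ≤
      ‖(Complex.I * w / (Real.sqrt N : ℝ)) ^ K.card‖ ^ 2 := by
    rw [← sq_abs]
    exact pow_le_pow_left₀ (abs_nonneg _) (Complex.abs_re_le_norm _) 2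
  refine h2.trans (le_of_eq ?_)
  rw [norm_pow, ← pow_mul, mul_comm K.card 2, pow_mul]
  congr 1
  rw [norm_div, norm_mul, Complex.norm_I, Complex.norm_real, Complex.norm_real, one_mul,
    Real.norm_eq_abs, Real.norm_eq_abs, div_pow, sq_abs, sq_abs, Real.sq_sqrt hN'.le]

/-- Module E -/
theorem eStmt : EStmt := by
  intro Ω _ μ u h w N hw hN
  constructor
  · rw [integral_sq_mev h]
    refine (Finset.sum_le_sum fun K _ => fcoef_sq_le w hN K).trans ?_
    rw [← Finset.mul_sum]
    have h1 := sum_card_le hN (w ^ 2) (sq_nonneg w) (fun _ => 1) (fun _ => zero_le_one)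
      (Real.exp (w ^ 2)) (by simpa using hasSum_poisson (w ^ 2))
    simp only [mul_one] at h1
    calc 2 * Real.exp (-w ^ 2) * ∑ K : Finset (Fin N), (w ^ 2 / N) ^ K.card
        ≤ 2 * Real.exp (-w ^ 2) * Real.exp (w ^ 2) :=
          mul_le_mul_of_nonneg_left h1 (by positivity)
      _ = 2 := by
          rw [mul_assoc, ← Real.exp_add]
          simp
  · have e : ∀ x : Fin N → ℝ, mev (num (fcoef w N)) x - w ^ 2 * mev (fcoef w N) x =
        mev (fun K => ((K.card : ℝ) - w ^ 2) * fcoef w N K) x := by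
      intro x
      simp only [mev, num, Finset.mul_sum, ← Finset.sum_sub_distrib]
      exact Finset.sum_congr rfl fun K _ => by ring
    simp_rw [e]
    rw [integral_sq_mev h]
    have h2 : ∀ K : Finset (Fin N), (((K.card : ℝ) - w ^ 2) * fcoef w N K) ^ 2 ≤
        2 * Real.exp (-w ^ 2) * ((w ^ 2 / N) ^ K.card * ((K.card : ℝ) - w ^ 2) ^ 2) := by
      intro K
      rw [mul_pow]
      have := mul_le_mul_of_nonneg_left (fcoef_sq_le w hN K) (sq_nonneg ((K.card : ℝ) - w ^ 2))
      linarith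
    refine (Finset.sum_le_sum fun K _ => h2 K).trans ?_
    rw [← Finset.mul_sum]
    have h1 := sum_card_le hN (w ^ 2) (sq_nonneg w) (fun k => ((k : ℝ) - w ^ 2) ^ 2)
      (fun _ => sq_nonneg _) (w ^ 2 * Real.exp (w ^ 2)) (hasSum_poisson_var (w ^ 2))
    calc 2 * Real.exp (-w ^ 2) * ∑ K : Finset (Fin N), (w ^ 2 / N) ^ K.card *
          ((K.card : ℝ) - w ^ 2) ^ 2
        ≤ 2 * Real.exp (-w ^ 2) * (w ^ 2 * Real.exp (w ^ 2)) :=
          mul_le_mul_of_nonneg_left h1 (by positivity)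
      _ = 2 * w ^ 2 * (Real.exp (-w ^ 2) * Real.exp (w ^ 2)) := by ring
      _ = 2 * w ^ 2 := by
          rw [← Real.exp_add]
          simp

end Pool.Agent.H62.HS
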